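import Mathlib

set_option autoImplicit false

namespace Pool.Agent.Results.MP_a656b1_co.Full

open Finset Classical

/-- `F` is an `I,U`-family in `M(e)`. -/
def IU {n : ℕ} (e : Fin n → ℕ) (F : Finset (Fin n → ℕ)) : Prop :=
  (∀ a ∈ F, ∀ i, a i ≤ e i) ∧
    ∀ a ∈ F, ∀ b ∈ F, (∃ i, e i < a i + b i) ∧ ∃ j, a j + b j < e j

noncomputable def box {m : ℕ} (h : Fin m → ℕ) : Finset (Fin m → ℕ) :=
  Fintype.piFinset (fun i => range (2 * h i + 1))

theorem mem_box {m : ℕ} (h a : Fin m → ℕ) : a ∈ box h ↔ ∀ i, a i ≤ 2 * h i := by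
  simp [box, Nat.lt_succ_iff]

def Two {m : ℕ} (h a : Fin m → ℕ) : Prop := ∃ p q, p ≠ q ∧ a p ≠ h p ∧ a q ≠ h q

theorem half {n : ℕ} (U : Finset (Finset (Fin n))) (hU : ∀ s ∈ U, sᶜ ∉ U) :
    2 * U.card ≤ 2 ^ n := by
  have h1 : (U.image compl).card = U.card := card_image_of_injective _ compl_injective
  have h2 : Disjoint U (U.image compl) := by
    rw [disjoint_right]
    intro s hs
    obtain ⟨t, ht, rfl⟩ := mem_image.1 hs
    exact hU t ht
  have h3 := card_le_univ (U ∪ U.image compl)
  rw [card_union_of_disjoint h2, Fintype.card_finset, Fintype.card_fin] at h3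
  omega

theorem setIU {n : ℕ} (A : Finset (Finset (Fin n)))
    (h : ∀ s ∈ A, ∀ t ∈ A, (∃ i, i ∈ s ∧ i ∈ t) ∧ ∃ j, j ∉ s ∧ j ∉ t) : 4 * A.card ≤ 2 ^ n := by
  let U : Finset (Finset (Fin n)) := univ.filter (fun s => ∃ t ∈ A, t ⊆ s)
  let L : Finset (Finset (Fin n)) := univ.filter (fun s => ∃ t ∈ A, s ⊆ t)
  have hU : IsUpperSet (U : Set (Finset (Fin n))) := by
    intro a b hab ha
    simp only [U, coe_filter, mem_univ, true_and, Set.mem_setOf_eq] at ha ⊢
    obtain ⟨t, h1, h2⟩ := ha
    exact ⟨t, h1, h2.trans hab⟩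
  have hL : IsLowerSet (L : Set (Finset (Fin n))) := by
    intro a b hab ha
    simp only [L, coe_filter, mem_univ, true_and, Set.mem_setOf_eq] at ha ⊢
    obtain ⟨t, h1, h2⟩ := ha
    exact ⟨t, h1, Subset.trans hab h2⟩
  have k := hU.card_inter_le_finset hL
  rw [Fintype.card_fin] at k
  have u1 := half U (by
    intro s hs hc
    simp only [U, mem_filter, mem_univ, true_and] at hs hc
    obtain ⟨t, h1, h2⟩ := hs
    obtain ⟨r, h3, h4⟩ := hc
    obtain ⟨i, h5, h6⟩ := (h t h1 r h3).1
    exact mem_compl.1 (h4 h6) (h2 h5))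
  have u2 := half L (by
    intro s hs hc
    simp only [L, mem_filter, mem_univ, true_and] at hs hc
    obtain ⟨t, h1, h2⟩ := hs
    obtain ⟨r, h3, h4⟩ := hc
    obtain ⟨i, h5, h6⟩ := (h t h1 r h3).2
    exact h6 (h4 (mem_compl.2 fun c => h5 (h2 c))))
  have u3 : A.card ≤ (U ∩ L).card := card_le_card (by
    intro s hs
    simp only [U, L, mem_inter, mem_filter, mem_univ, true_and]
    exact ⟨⟨s, hs, Subset.rfl⟩, s, hs, Subset.rfl⟩)
  have u4 : 2 ^ n * (4 * A.card) ≤ 2 ^ n * 2 ^ n := by
    have := Nat.mul_le_mul u1 u2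
    have := Nat.mul_le_mul_left (2 ^ n) u3
    nlinarith
  exact Nat.le_of_mul_le_mul_left u4 (by positivity)

def fl {n : ℕ} (h : Fin n → ℕ) (s : Finset (Fin n)) (c : Fin n → ℕ) : Fin n → ℕ :=
  fun i => if i ∈ s then c i else 2 * h i - c i

theorem upper {n : ℕ} (h : Fin n → ℕ) (F : Finset (Fin n → ℕ)) (hF : IU (fun i => 2 * h i) F) :
    4 * F.card ≤ ((box h).filter (Two h)).card := by
  have e1 : ∀ s : Finset (Fin n), F.card ≤
      (((box h).filter (Two h)).filter (fun c => fl h s c ∈ F)).card := by
    intro s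
    have inv : ∀ a ∈ F, fl h s (fl h s a) = a := by
      intro a ha
      funext i
      have := hF.1 a ha i
      simp only [fl] at this ⊢
      split_ifs <;> omega
    apply card_le_card_of_injOn (fl h s)
    · intro a ha
      have ha' : a ∈ F := ha
      simp only [coe_filter, mem_filter, Set.mem_setOf_eq, mem_box]
      refine ⟨⟨fun i => ?_, ?_⟩, by rw [inv a ha']; exact ha'⟩
      · have := hF.1 a ha' i
        simp only [fl] at this ⊢
        split_ifs <;> omega
      · obtain ⟨⟨i, h1⟩, j, h2⟩ := hF.2 a ha' a ha'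
        have := hF.1 a ha' i
        simp only at h1 h2 this
        refine ⟨i, j, fun c => by subst c; omega, ?_, ?_⟩ <;> simp only [fl] <;>
          split_ifs <;> omega
    · intro a ha b hb hab
      rw [← inv a ha, ← inv b hb, hab]
  have e2 : ∀ c ∈ (box h).filter (Two h),
      4 * (univ.filter (fun s : Finset (Fin n) => fl h s c ∈ F)).card ≤ 2 ^ n := by
    intro c hc
    have hb := (mem_box h c).1 (mem_filter.1 hc).1
    let σ : Finset (Fin n) → Finset (Fin n) := fun s => univ.filter (fun i => i ∈ s ↔ h i ≤ c i)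
    have inj : Function.Injective σ := by
      intro s t hst
      ext i
      have : i ∈ σ s ↔ i ∈ σ t := by rw [hst]
      simp only [σ, mem_filter, mem_univ, true_and] at this
      tauto
    rw [← card_image_of_injective _ inj]
    apply setIU
    intro s' hs t' ht
    obtain ⟨s, hs2, rfl⟩ := mem_image.1 hs
    obtain ⟨t, ht2, rfl⟩ := mem_image.1 ht
    obtain ⟨⟨i, h1⟩, j, h2⟩ := hF.2 _ (mem_filter.1 hs2).2 _ (mem_filter.1 ht2).2
    have b1 := hb i
    have b2 := hb j
    simp only [σ, mem_filter, mem_univ, true_and]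
    simp only [fl] at h1 h2
    refine ⟨⟨i, ?_⟩, j, ?_⟩
    · by_cases x : i ∈ s <;> by_cases y : i ∈ t <;> simp only [x, y, if_true, if_false,
        true_iff, false_iff] at h1 ⊢ <;> omega
    · by_cases x : j ∈ s <;> by_cases y : j ∈ t <;> simp only [x, y, if_true, if_false,
        true_iff, false_iff] at h2 ⊢ <;> omega
  have e3 : ∑ s : Finset (Fin n), (((box h).filter (Two h)).filter (fun c => fl h s c ∈ F)).card =
      ∑ c ∈ (box h).filter (Two h),
        (univ.filter (fun s : Finset (Fin n) => fl h s c ∈ F)).card := by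
    simp only [card_filter]
    exact sum_comm
  have e4 := sum_le_sum (s := (univ : Finset (Finset (Fin n)))) (fun s _ => e1 s)
  have e5 := sum_le_sum e2
  rw [← mul_sum, ← e3] at e5
  simp only [sum_const, card_univ, Fintype.card_finset, Fintype.card_fin, smul_eq_mul] at e4 e5
  have u4 : 2 ^ n * (4 * F.card) ≤ 2 ^ n * ((box h).filter (Two h)).card := by nlinarith
  exact Nat.le_of_mul_le_mul_left u4 (by positivity)

def Good {n : ℕ} (h a : Fin n → ℕ) : Prop :=
  (∃ i, (∀ j, j < i → a j = h j) ∧ h i < a i) ∧ ∃ i, (∀ j, i < j → a j = h j) ∧ a i < h i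

theorem good_IU {n : ℕ} (h : Fin n → ℕ) : IU (fun i => 2 * h i) ((box h).filter (Good h)) := by
  refine ⟨fun a ha => (mem_box h a).1 (mem_filter.1 ha).1, fun a ha b hb => ?_⟩
  obtain ⟨⟨i, a1, a2⟩, j, b1, b2⟩ := (mem_filter.1 ha).2
  obtain ⟨⟨i', c1, c2⟩, j', d1, d2⟩ := (mem_filter.1 hb).2
  constructor
  · rcases lt_trichotomy i i' with c | c | c
    · exact ⟨i, by have := c1 i c; simp only; omega⟩
    · subst c; exact ⟨i, by simp only; omega⟩
    · exact ⟨i', by have := a1 i' c; simp only; omega⟩
  · rcases lt_trichotomy j j' with c | c | c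
    · exact ⟨j', by have := b1 j' c; simp only; omega⟩
    · subst c; exact ⟨j, by simp only; omega⟩
    · exact ⟨j, by have := d1 j c; simp only; omega⟩

theorem ends {n : ℕ} (h a : Fin n → ℕ) : ∃ x : Option (Fin n × Fin n), Two h a → ∃ p q,
    x = some (p, q) ∧ p < q ∧ a p ≠ h p ∧ a q ≠ h q ∧ (∀ j, j < p → a j = h j) ∧
      ∀ j, q < j → a j = h j := by
  by_cases ht : Two h a
  · obtain ⟨p, q, h1, h2, h3⟩ := ht
    have hex : (univ.filter (fun i => a i ≠ h i)).Nonempty := ⟨p, by simp [h2]⟩
    have m1 := (mem_filter.1 (min'_mem _ hex)).2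
    have m2 := (mem_filter.1 (max'_mem _ hex)).2
    refine ⟨some (min' _ hex, max' _ hex), fun _ => ⟨_, _, rfl, ?_, m1, m2, ?_, ?_⟩⟩
    · exact min'_lt_max' _ (show p ∈ _ by simp [h2]) (show q ∈ _ by simp [h3]) h1
    · intro j hj
      by_contra c
      exact absurd (min'_le _ j (by simp [c])) (not_le.2 hj)
    · intro j hj
      by_contra c
      exact absurd (le_max' _ j (by simp [c])) (not_le.2 hj)
  · exact ⟨none, fun c => absurd c ht⟩

def nm {n : ℕ} (h a : Fin n → ℕ) : Option (Fin n × Fin n) → (Fin n → ℕ) × Bool × Bool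
  | none => (a, true, true)
  | some (p, q) => (fun i => if i = p then max (a i) (2 * h i - a i) else
      if i = q then min (a i) (2 * h i - a i) else a i, decide (a p < h p), decide (a q < h q))

theorem lower {n : ℕ} (h : Fin n → ℕ) :
    ((box h).filter (Two h)).card ≤ 4 * ((box h).filter (Good h)).card := by
  choose X hX using ends h
  have : ((box h).filter (Two h)).card ≤
      (((box h).filter (Good h)) ×ˢ (univ : Finset (Bool × Bool))).card := by
    apply card_le_card_of_injOn (fun a => nm h a (X a))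
    · intro a ha
      obtain ⟨hb, ht⟩ := mem_filter.1 (mem_coe.1 ha)
      rw [mem_box] at hb
      obtain ⟨p, q, e, h1, h2, h3, h4, h5⟩ := hX a ht
      simp only [e, nm, mem_coe, mem_product, mem_univ, and_true, mem_filter, mem_box]
      refine ⟨fun i => ?_, ⟨p, fun j hj => ?_, ?_⟩, q, fun j hj => ?_, ?_⟩
      · have := hb i; split_ifs <;> omega
      · simp only [if_neg hj.ne, if_neg (hj.trans h1).ne]; exact h4 j hj
      · have := hb p; simp only [if_true]; omega
      · simp only [if_neg hj.ne', if_neg (h1.trans hj).ne']; exact h5 j hj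
      · have := hb q; simp only [if_neg h1.ne', if_true]; omega
    · intro a ha b hb' hab
      obtain ⟨hb, ht⟩ := mem_filter.1 (mem_coe.1 ha)
      obtain ⟨hc, hu⟩ := mem_filter.1 (mem_coe.1 hb')
      rw [mem_box] at hb hc
      obtain ⟨p, q, e, h1, h2, h3, h4, h5⟩ := hX a ht
      obtain ⟨p', q', e', g1, g2, g3, g4, g5⟩ := hX b hu
      simp only [e, e', nm, Prod.mk.injEq, decide_eq_decide] at hab
      obtain ⟨k1, k2, k3⟩ := hab
      have hp : p = p' := by
        rcases lt_trichotomy p p' with c | c | c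
        · have := congrFun k1 p
          have := g4 p c
          have := hb p
          simp only [if_true, if_neg c.ne, if_neg (c.trans g1).ne] at *; omega
        · exact c
        · have := congrFun k1 p'
          have := h4 p' c
          have := hc p'
          simp only [if_true, if_neg c.ne, if_neg (c.trans h1).ne] at *; omega
      subst hp
      have hq : q = q' := by
        rcases lt_trichotomy q q' with c | c | c
        · have := congrFun k1 q'
          have := h5 q' c
          have := hc q'
          simp only [if_true, if_neg c.ne', if_neg g1.ne'] at *; omega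
        · exact c
        · have := congrFun k1 q
          have := g5 q c
          have := hb q
          simp only [if_true, if_neg c.ne', if_neg h1.ne'] at *; omega
      subst hq
      funext i
      have k4 := congrFun k1 i
      have := hb i
      have := hc i
      by_cases x : i = p
      · subst x; simp only [if_true] at k4; omega
      · by_cases y : i = q
        · subst y; simp only [if_neg x, if_true] at k4; omega
        · simpa only [if_neg x, if_neg y] using k4
  rw [card_product, card_univ, Fintype.card_prod, Fintype.card_bool] at this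
  omega

theorem count {n : ℕ} (h : Fin n → ℕ) :
    ((box h).filter (Two h)).card + 1 + ∑ i, 2 * h i = ∏ i, (2 * h i + 1) := by
  have e1 : (box h).card = ∏ i, (2 * h i + 1) := by simp [box]
  have e2 := card_filter_add_card_filter_not (s := box h) (Two h)
  have e3 : (box h).filter (fun a => ¬ Two h a) = insert h
      ((univ.sigma (fun i => (range (2 * h i + 1)).erase (h i))).image
        (fun x : (Σ _ : Fin n, ℕ) => Function.update h x.1 x.2)) := by
    ext a
    simp only [mem_filter, mem_box, mem_insert, mem_image, mem_sigma, mem_univ, true_and,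
      mem_erase, mem_range]
    constructor
    · rintro ⟨h1, h2⟩
      by_cases c : a = h
      · exact Or.inl c
      · obtain ⟨i, hi⟩ := Function.ne_iff.1 c
        refine Or.inr ⟨⟨i, a i⟩, ⟨hi, Nat.lt_succ_of_le (h1 i)⟩, ?_⟩
        funext j
        by_cases x : j = i
        · subst x; simp
        · rw [Function.update_of_ne x]
          by_contra y
          exact h2 ⟨i, j, fun z => x z.symm, hi, fun z => y z.symm⟩
    · rintro (rfl | ⟨⟨i, v⟩, ⟨h1, h2⟩, rfl⟩)
      · exact ⟨fun i => by omega, fun ⟨p, _, _, c, _⟩ => c rfl⟩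
      · refine ⟨fun j => ?_, fun ⟨p, q, c1, c2, c3⟩ => ?_⟩
        · by_cases x : j = i
          · subst x; simp only [Function.update_self] at *; omega
          · rw [Function.update_of_ne x]; omega
        · by_cases x : p = i
          · exact c3 (Function.update_of_ne (fun z => c1 (x.trans z.symm)) _ _)
          · exact c2 (Function.update_of_ne x _ _)
  rw [e3, card_insert_of_notMem, card_image_of_injOn, card_sigma] at e2
  · have e4 : ∑ i, ((range (2 * h i + 1)).erase (h i)).card = ∑ i, 2 * h i :=
      sum_congr rfl fun i _ => by rw [card_erase_of_mem (by simp; omega), card_range]; omega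
    omega
  · rintro ⟨i, v⟩ hx ⟨j, w⟩ hy hxy
    have hv : v ≠ h i := (mem_erase.1 (mem_sigma.1 (mem_coe.1 hx)).2).1
    have k := congrFun hxy i
    simp only [Function.update_self] at k
    by_cases x : i = j
    · subst x; simp only [Function.update_self] at k; rw [k]
    · rw [Function.update_of_ne x] at k; exact absurd k hv
  · intro c
    obtain ⟨⟨i, v⟩, hx, hy⟩ := mem_image.1 c
    have hv : v ≠ h i := (mem_erase.1 (mem_sigma.1 hx).2).1
    have k := congrFun hy i
    simp only [Function.update_self] at k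
    exact hv k

theorem result (n : ℕ) (e : Fin n → ℕ) (he : ∀ i, Even (e i)) :
    ∃ g : ℕ, IsGreatest {k : ℕ | ∃ F : Finset (Fin n → ℕ), IU e F ∧ F.card = k} g ∧
      4 * g + 1 + ∑ i, e i = ∏ i, (e i + 1) := by
  choose h hh using he
  obtain rfl : e = fun i => 2 * h i := funext fun i => by have := hh i; omega
  have h1 := upper h _ (good_IU h)
  have h2 := lower h
  have h3 := count h
  refine ⟨_, ⟨⟨_, good_IU h, rfl⟩, ?_⟩, by beta_reduce; omega⟩
  rintro k ⟨F, hF, rfl⟩
  have := upper h F hF
  omega

end Pool.Agent.Results.MP_a656b1_co.Full
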